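import Pool.Agent.W321.SQ.Stm

/-!
# SQ-JT: joints with the heap of tops
-/

set_option autoImplicit false

namespace Pool.Agent.W215.SQ

open Finset Pool.Agent.W321.SP Pool.Agent.W321.SQ

theorem G_pos {g₁ g₂ g₃ : ℕ} (h : P3 g₁ g₂ g₃) : 1 ≤ g₁ * g₂ * g₃ :=
  Nat.mul_pos (Nat.mul_pos h.p1.pos h.p2.pos) h.p3.pos

/-- a fresh top -/
theorem fresh (g₁ g₂ g₃ T κ s : ℕ) (F S : Finset ℕ) (h3 : P3 g₁ g₂ g₃) (hT : 4 * κ ≤ T)
    (hκ : 1000 * (g₁ * g₂ * g₃) * (F.card + 1) ≤ κ) (hS : Sp s S)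
    (hs : 10 ^ 4 * (g₁ * g₂ * g₃) ≤ s) :
    ∃ x, g₁ ∣ x ∧ ¬ g₃ ∣ x ∧ x + 3 * κ ≤ T ∧ T ≤ x + 4 * κ ∧ x ∉ F ∧ x ∉ S := by
  set M : ℕ := g₁ * g₃ with hM
  have hg2 : 1 ≤ g₂ := h3.p2.pos
  have hMG : M ≤ g₁ * g₂ * g₃ := by
    rw [hM]
    nlinarith [Nat.mul_pos h3.p1.pos h3.p3.pos]
  have hM1 : 1 ≤ M := Nat.mul_pos h3.p1.pos h3.p3.pos
  have hg1M : g₁ ≤ M := by
    rw [hM]
    nlinarith [h3.p3.pos]
  set a : ℕ := T - 4 * κ with ha
  set q : ℕ := a / M + 1 with hq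
  have hq1 : a < M * q := by
    rw [hq]
    exact Nat.lt_mul_div_succ a (by omega)
  have hq2 : M * q ≤ a + M := by
    rw [hq, mul_add, mul_one]
    have := Nat.mul_div_le a M
    omega
  let x : ℕ → ℕ := fun i => M * (q + i) + g₁
  have hx : ∀ i, x i = M * q + M * i + g₁ := fun i => by simp only [x]; ring
  have hdvd : ∀ i, g₁ ∣ x i ∧ ¬ g₃ ∣ x i := by
    intro i
    refine ⟨Dvd.dvd.add (Dvd.dvd.mul_right ⟨g₃, hM⟩ _) dvd_rfl, ?_⟩
    intro h
    have h1 : g₃ ∣ M * (q + i) := Dvd.dvd.mul_right ⟨g₁, by rw [hM]; ring⟩ _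
    have h2 : g₃ ∣ g₁ := (Nat.dvd_add_right h1).mp h
    have h4 := Nat.le_of_dvd h3.p1.pos h2
    have := h3.h12
    have := h3.h23
    omega
  -- blocks
  have hblock : ∀ k : ℕ, ∃ i, 4 * k ≤ i ∧ i < 4 * k + 4 ∧ x i ∉ S := by
    intro k
    by_contra hcon
    push Not at hcon
    have h1 := hS (x (4 * k))
    have h2 : (Finset.Ico (4 * k) (4 * k + 4)).image x ⊆
        S.filter (fun y => x (4 * k) ≤ y ∧ y < x (4 * k) + s) := by
      intro y hy
      rw [Finset.mem_image] at hy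
      obtain ⟨i, hi, rfl⟩ := hy
      rw [Finset.mem_Ico] at hi
      rw [Finset.mem_filter]
      refine ⟨hcon i hi.1 hi.2, ?_, ?_⟩
      · rw [hx, hx]
        have := Nat.mul_le_mul_left M hi.1
        omega
      · rw [hx, hx]
        have h4 : M * i ≤ M * (4 * k + 3) := Nat.mul_le_mul_left M (by omega)
        have h5 : M * (4 * k + 3) = M * (4 * k) + 3 * M := by ring
        have h6 : 3 * M < s := by
          have : 10 ^ 4 * M ≤ 10 ^ 4 * (g₁ * g₂ * g₃) := Nat.mul_le_mul_left _ hMG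
          omega
        omega
    have h3' := Finset.card_le_card h2
    rw [Finset.card_image_of_injOn, Nat.card_Ico] at h3'
    · omega
    · intro i _ i' _ h
      have h4 : x i = x i' := h
      rw [hx, hx] at h4
      have h5 : M * i = M * i' := by omega
      exact Nat.eq_of_mul_eq_mul_left (by omega) h5
  choose ix hix1 hix2 hixS using hblock
  have hinj : Set.InjOn (fun k => x (ix k)) (Finset.range (F.card + 1) : Set ℕ) := by
    intro k _ k' _ h
    have h4 : x (ix k) = x (ix k') := h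
    rw [hx, hx] at h4
    have h5 : M * ix k = M * ix k' := by omega
    have h6 := Nat.eq_of_mul_eq_mul_left (show 0 < M by omega) h5
    have := hix1 k
    have := hix2 k
    have := hix1 k'
    have := hix2 k'
    omega
  have hex : ∃ k ∈ Finset.range (F.card + 1), x (ix k) ∉ F := by
    by_contra hcon
    push Not at hcon
    have h1 : (Finset.range (F.card + 1)).image (fun k => x (ix k)) ⊆ F := by
      intro y hy
      rw [Finset.mem_image] at hy
      obtain ⟨k, hk, rfl⟩ := hy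
      exact hcon k hk
    have h2 := Finset.card_le_card h1
    rw [Finset.card_image_of_injOn hinj, Finset.card_range] at h2
    omega
  obtain ⟨k, hk, hkF⟩ := hex
  rw [Finset.mem_range] at hk
  refine ⟨x (ix k), (hdvd _).1, (hdvd _).2, ?_, ?_, hkF, hixS k⟩
  · have h1 : ix k ≤ 4 * F.card + 3 := by
      have := hix2 k
      omega
    have h2 : M * ix k ≤ M * (4 * F.card + 3) := Nat.mul_le_mul_left M h1
    have h4 : M * (4 * F.card + 3) + 2 * M ≤ κ := by
      have h5 : M * (F.card + 1) ≤ (g₁ * g₂ * g₃) * (F.card + 1) := Nat.mul_le_mul_right _ hMG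
      nlinarith
    rw [hx]
    omega
  · rw [hx]
    omega

/-- one joint -/
theorem joint (hC : C3Stm) (g₁ g₂ g₃ U P P' e e' κ s : ℕ) (F S : Finset ℕ) (h3 : P3 g₁ g₂ g₃)
    (hU : g₁ ∣ U) (hU3 : ¬ g₃ ∣ U) (hP : 1 ≤ P) (hP' : 1 ≤ P') (he : 1 ≤ e) (he' : 1 ≤ e')
    (hPU : P + 3 * κ ≤ U) (hPU' : P' + 3 * κ ≤ U) (heU : e + 3 * κ ≤ U) (heU' : e' + 3 * κ ≤ U)
    (hκ : 1000 * (g₁ * g₂ * g₃) * (F.card + 17) ≤ κ) (hS : Sp s S)
    (hs : 10 ^ 4 * (g₁ * g₂ * g₃) ≤ s) :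
    ∃ (z : List ℕ) (w : Multiset ℕ), z.length = 33 ∧ (z : Multiset ℕ) = U ::ₘ w ∧ w.Nodup ∧
      (∀ x ∈ w, Ft g₁ g₂ g₃ x ∧ x < U ∧ x ∉ F ∧ x ∉ S) ∧
      dm (P :: (z ++ [P'])) = w + {e} + {e'} := by
  obtain ⟨z1, hz1, hn1, hm1, hd1⟩ := hC g₁ g₂ g₃ U P e κ s F S h3 hU hU3 hP he hPU heU
    (le_trans (Nat.mul_le_mul_left _ (by omega)) hκ) hS hs
  have hcard : (F ∪ z1.toFinset).card + 1 ≤ F.card + 17 := by
    have h1 := Finset.card_union_le F z1.toFinset
    have h2 := List.toFinset_card_le z1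
    omega
  obtain ⟨z2, hz2, hn2, hm2, hd2⟩ := hC g₁ g₂ g₃ U P' e' κ s (F ∪ z1.toFinset) S h3 hU hU3 hP' he'
    hPU' heU' (le_trans (Nat.mul_le_mul_left _ hcard) hκ) hS hs
  refine ⟨z1.reverse ++ U :: z2, (z1 : Multiset ℕ) + (z2 : Multiset ℕ), ?_, ?_, ?_, ?_, ?_⟩
  · rw [List.length_append, List.length_reverse, List.length_cons, hz1, hz2]
  · rw [← Multiset.coe_add, ← Multiset.cons_coe, Multiset.coe_reverse, Multiset.add_cons]
  · rw [Multiset.nodup_add]
    refine ⟨Multiset.coe_nodup.mpr hn1, Multiset.coe_nodup.mpr hn2, ?_⟩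
    rw [Multiset.disjoint_left]
    intro x hx1 hx2
    have := (hm2 x (Multiset.mem_coe.mp hx2)).2.2.1
    apply this
    rw [Finset.mem_union, List.mem_toFinset]
    exact Or.inr (Multiset.mem_coe.mp hx1)
  · intro x hx
    rw [Multiset.mem_add, Multiset.mem_coe, Multiset.mem_coe] at hx
    rcases hx with hx | hx
    · exact hm1 x hx
    · obtain ⟨h1, h2, h4, h5⟩ := hm2 x hx
      exact ⟨h1, h2, fun h => h4 (Finset.mem_union_left _ h), h5⟩
  · have e1 : P :: (z1.reverse ++ U :: z2 ++ [P']) = (P :: z1.reverse) ++ U :: (z2 ++ [P']) := by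
      simp
    have e2 : (P :: z1.reverse) ++ [U] = (U :: (z1 ++ [P])).reverse := by
      simp
    rw [e1, dm_append_cons, e2, dm_reverse, hd1, hd2, ← Multiset.singleton_add,
      ← Multiset.singleton_add]
    abel

theorem split_sum (φ : ℕ → Multiset ℕ) (j : ℕ) :
    φ (j + 1) + ∑ i ∈ Ioc (j + 1) (2 * j + 3), φ i =
      ∑ i ∈ Ioc j (2 * j + 1), φ i + φ (2 * j + 2) + φ (2 * j + 3) := by
  have h1 : ∑ i ∈ Ioc j (2 * j + 3), φ i =
      ∑ i ∈ Ioc j (2 * j + 1), φ i + φ (2 * j + 2) + φ (2 * j + 3) := by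
    rw [Finset.sum_Ioc_succ_top (by omega : j ≤ 2 * j + 2),
      Finset.sum_Ioc_succ_top (by omega : j ≤ 2 * j + 1)]
  have h2 : ∑ i ∈ Ioc j (2 * j + 3), φ i = φ (j + 1) + ∑ i ∈ Ioc (j + 1) (2 * j + 3), φ i := by
    rw [← Finset.sum_Ioc_consecutive φ (by omega : j ≤ j + 1) (by omega : j + 1 ≤ 2 * j + 3),
      Finset.sum_Ioc_succ_top (le_refl j), Finset.Ioc_self, Finset.sum_empty, zero_add]
  rw [← h1, h2]

/-- the state after `j` joints -/
structure Inv (g₁ g₂ g₃ H J c : ℕ) (P P' E : ℕ → ℕ) (F S : Finset ℕ) (j : ℕ) (t : ℕ → ℕ)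
    (z : ℕ → List ℕ) : Prop where
  top : ∀ i, 1 ≤ i → i ≤ 2 * j + 1 → g₁ ∣ t i ∧ ¬ g₃ ∣ t i ∧ t i ≤ H ∧ H ≤ t i + 8 * c * i
  len : ∀ i < j, (z i).length = 33
  nodup : (∑ i ∈ range j, (z i : Multiset ℕ) +
    ∑ i ∈ Ioc j (2 * j + 1), (if i ≤ J then {t i} else 0 : Multiset ℕ)).Nodup
  mem : H ∈ (∑ i ∈ range j, (z i : Multiset ℕ) +
    ∑ i ∈ Ioc j (2 * j + 1), (if i ≤ J then {t i} else 0 : Multiset ℕ))
  all : ∀ x ∈ (∑ i ∈ range j, (z i : Multiset ℕ) +
    ∑ i ∈ Ioc j (2 * j + 1), (if i ≤ J then {t i} else 0 : Multiset ℕ)),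
      x ≠ H → Ft g₁ g₂ g₃ x ∧ x < H ∧ x ∉ F ∧ x ∉ S
  eqn : (∑ i ∈ range j, dm (P i :: (z i ++ [P' i]))) + {H} =
    (∑ i ∈ range j, (z i : Multiset ℕ)) +
      ∑ i ∈ Ioc j (2 * j + 1), ({if i ≤ J then t i else E (i - J - 1)} : Multiset ℕ)

theorem inv_zero (g₁ g₂ g₃ H J c : ℕ) (P P' E : ℕ → ℕ) (F S : Finset ℕ) (hJ : 1 ≤ J)
    (h1 : g₁ ∣ H) (h3 : ¬ g₃ ∣ H) :
    Inv g₁ g₂ g₃ H J c P P' E F S 0 (fun _ => H) (fun _ => []) := by
  have h0 : Ioc 0 (2 * 0 + 1) = {1} := by decide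
  constructor
  · intro i hi hi'
    exact ⟨h1, h3, le_rfl, by omega⟩
  · intro i hi
    omega
  · rw [h0]; simp [hJ]
  · rw [h0]; simp [hJ]
  · rw [h0]
    intro x hx hxH
    simp [hJ] at hx
    exact absurd hx hxH
  · rw [h0]; simp [hJ]

theorem inv_succ (hC : C3Stm) (g₁ g₂ g₃ B H s J : ℕ) (P P' E : ℕ → ℕ) (F S : Finset ℕ)
    (h3 : P3 g₁ g₂ g₃) (hP : ∀ j < J, 1 ≤ P j ∧ P j ≤ B ∧ 1 ≤ P' j ∧ P' j ≤ B)
    (hE : ∀ j ≤ J, 1 ≤ E j ∧ E j ≤ B) (hS : Sp s S) (hs : 10 ^ 4 * (g₁ * g₂ * g₃) ≤ s)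
    (hH : B + 10 ^ 6 * (g₁ * g₂ * g₃) * (F.card + 1) * J ≤ H) (j : ℕ) (hj : j < J) (t : ℕ → ℕ)
    (z : ℕ → List ℕ)
    (hI : Inv g₁ g₂ g₃ H J (56000 * ((g₁ * g₂ * g₃) * (F.card + 1))) P P' E F S j t z) :
    ∃ (t' : ℕ → ℕ) (z' : ℕ → List ℕ),
      Inv g₁ g₂ g₃ H J (56000 * ((g₁ * g₂ * g₃) * (F.card + 1))) P P' E F S (j + 1) t' z' := by
  set G : ℕ := g₁ * g₂ * g₃ with hG
  have hG1 : 1 ≤ G := G_pos h3
  set c : ℕ := 56000 * (G * (F.card + 1)) with hc
  obtain ⟨htop, hlen, hnod, hmem, hall, heq⟩ := hI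
  set M : Multiset ℕ := ∑ i ∈ range j, (z i : Multiset ℕ) +
    ∑ i ∈ Ioc j (2 * j + 1), (if i ≤ J then {t i} else 0 : Multiset ℕ) with hM
  clear_value M
  obtain ⟨hT1, hT3, hTH, hHT⟩ := htop (j + 1) (by omega) (by omega)
  set T : ℕ := t (j + 1) with hT
  set κ : ℕ := 1000 * G * (F.card + 34 * j + 25) with hκ
  set Q : ℕ := G * (F.card + 1) * J with hQ
  have hcQ : c * (j + 1) ≤ 56000 * Q := by
    rw [hc, hQ]
    calc 56000 * (G * (F.card + 1)) * (j + 1) ≤ 56000 * (G * (F.card + 1)) * J :=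
          Nat.mul_le_mul_left _ hj
      _ = 56000 * (G * (F.card + 1) * J) := by ring
  have hκc : κ ≤ c * (j + 1) := by
    rw [hc, hκ]
    have h1 : F.card + 34 * j + 25 ≤ 56 * ((F.card + 1) * (j + 1)) := by
      nlinarith [Nat.zero_le (F.card * j)]
    calc 1000 * G * (F.card + 34 * j + 25) ≤ 1000 * G * (56 * ((F.card + 1) * (j + 1))) :=
          Nat.mul_le_mul_left _ h1
      _ = 56000 * (G * (F.card + 1)) * (j + 1) := by ring
  have hHQ : B + 10 ^ 6 * Q ≤ H := by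
    have : 10 ^ 6 * G * (F.card + 1) * J = 10 ^ 6 * Q := by rw [hQ]; ring
    omega
  have hTc : H ≤ T + 8 * (c * (j + 1)) := by
    have : 8 * c * (j + 1) = 8 * (c * (j + 1)) := by ring
    omega
  have hTB : B + 4 * κ ≤ T := by omega
  have hκ1 : 1 ≤ κ := by
    rw [hκ]
    have : 1 * 1 ≤ (1000 * G) * (F.card + 34 * j + 25) := Nat.mul_le_mul (by omega) (by omega)
    omega
  -- cardinality
  have hcardM : Multiset.card M ≤ 34 * j + 1 := by
    rw [hM, Multiset.card_add, Multiset.card_sum, Multiset.card_sum]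
    have e1 : ∑ i ∈ range j, Multiset.card (z i : Multiset ℕ) = 33 * j := by
      rw [Finset.sum_congr rfl (fun i hi => by
        rw [Multiset.coe_card, hlen i (Finset.mem_range.mp hi)]), Finset.sum_const,
        Finset.card_range, smul_eq_mul, mul_comm]
    have e2 : ∑ i ∈ Ioc j (2 * j + 1),
        Multiset.card (if i ≤ J then {t i} else 0 : Multiset ℕ) ≤ j + 1 := by
      refine (Finset.sum_le_sum (g := fun _ => 1) fun i _ => ?_).trans ?_
      · split_ifs <;> simp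
      · rw [Finset.sum_const, Nat.card_Ioc, smul_eq_mul]
        omega
    omega
  have hF1 : (F ∪ M.toFinset).card ≤ F.card + 34 * j + 1 := by
    have h1 := Finset.card_union_le F M.toFinset
    have h2 := Multiset.toFinset_card_le M
    omega
  obtain ⟨x1, hx11, hx13, hx1T, hTx1, hx1F, hx1S⟩ := fresh g₁ g₂ g₃ T κ s (F ∪ M.toFinset) S h3
    (by omega) (by rw [hκ]; exact Nat.mul_le_mul_left _ (by omega)) hS hs
  have hF2 : (insert x1 (F ∪ M.toFinset)).card ≤ F.card + 34 * j + 2 := by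
    have := Finset.card_insert_le x1 (F ∪ M.toFinset)
    omega
  obtain ⟨x2, hx21, hx23, hx2T, hTx2, hx2F, hx2S⟩ := fresh g₁ g₂ g₃ T κ s
    (insert x1 (F ∪ M.toFinset)) S h3
    (by omega) (by rw [hκ]; exact Nat.mul_le_mul_left _ (by omega)) hS hs
  have hF3 : (insert x2 (insert x1 (F ∪ M.toFinset))).card ≤ F.card + 34 * j + 3 := by
    have := Finset.card_insert_le x2 (insert x1 (F ∪ M.toFinset))
    omega
  -- the new tops
  obtain ⟨t', ht'⟩ : ∃ t' : ℕ → ℕ, t' = fun i =>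
      if i = 2 * j + 2 then x1 else if i = 2 * j + 3 then x2 else t i := ⟨_, rfl⟩
  have ht'1 : t' (2 * j + 2) = x1 := by rw [ht']; simp
  have ht'2 : t' (2 * j + 3) = x2 := by rw [ht']; simp
  have ht'0 : ∀ i, i ≤ 2 * j + 1 → t' i = t i := by
    intro i hi
    rw [ht']
    simp only
    rw [if_neg (by omega), if_neg (by omega)]
  obtain ⟨e, he⟩ : ∃ e : ℕ, e = if 2 * j + 2 ≤ J then x1 else E (2 * j + 2 - J - 1) := ⟨_, rfl⟩
  obtain ⟨e', he'⟩ : ∃ e' : ℕ, e' = if 2 * j + 3 ≤ J then x2 else E (2 * j + 3 - J - 1) :=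
    ⟨_, rfl⟩
  have hne0 : ∀ y, ¬ g₃ ∣ y → 1 ≤ y := by
    intro y hy
    by_contra h
    have : y = 0 := by omega
    rw [this] at hy
    exact hy (dvd_zero _)
  have he1 : 1 ≤ e ∧ e + 3 * κ ≤ T := by
    rw [he]
    split_ifs
    · exact ⟨hne0 x1 hx13, hx1T⟩
    · have := hE (2 * j + 2 - J - 1) (by omega)
      exact ⟨this.1, by omega⟩
  have he1' : 1 ≤ e' ∧ e' + 3 * κ ≤ T := by
    rw [he']
    split_ifs
    · exact ⟨hne0 x2 hx23, hx2T⟩
    · have := hE (2 * j + 3 - J - 1) (by omega)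
      exact ⟨this.1, by omega⟩
  obtain ⟨hPj, hPjB, hPj', hPjB'⟩ := hP j hj
  obtain ⟨zj, w, hzlen, hzw, hwn, hwm, hwd⟩ := joint hC g₁ g₂ g₃ T (P j) (P' j) e e' κ s
    (insert x2 (insert x1 (F ∪ M.toFinset))) S h3 hT1 hT3 hPj hPj' he1.1 he1'.1 (by omega)
    (by omega) he1.2 he1'.2 (by rw [hκ]; exact Nat.mul_le_mul_left _ (by omega)) hS hs
  obtain ⟨z', hz'⟩ : ∃ z' : ℕ → List ℕ, z' = fun i => if i = j then zj else z i := ⟨_, rfl⟩
  have hz'j : z' j = zj := by rw [hz']; simp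
  have hz'i : ∀ i, i < j → z' i = z i := by
    intro i hi
    rw [hz']
    simp only
    rw [if_neg (by omega)]
  have hsum : ∑ i ∈ range (j + 1), (z' i : Multiset ℕ) =
      ∑ i ∈ range j, (z i : Multiset ℕ) + ({T} + w) := by
    rw [Finset.sum_range_succ, hz'j, hzw, Multiset.singleton_add]
    congr 1
    apply Finset.sum_congr rfl
    intro i hi
    rw [hz'i i (Finset.mem_range.mp hi)]
  have hspl := split_sum (fun i => (if i ≤ J then {t' i} else 0 : Multiset ℕ)) j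
  have hold : ∑ i ∈ Ioc j (2 * j + 1), (if i ≤ J then {t' i} else 0 : Multiset ℕ) =
      ∑ i ∈ Ioc j (2 * j + 1), (if i ≤ J then {t i} else 0 : Multiset ℕ) := by
    apply Finset.sum_congr rfl
    intro i hi
    rw [ht'0 i (Finset.mem_Ioc.mp hi).2]
  rw [hold, ht'0 (j + 1) (by omega), if_pos (show j + 1 ≤ J by omega), ht'1, ht'2] at hspl
  have hM' : ∑ i ∈ range (j + 1), (z' i : Multiset ℕ) +
      ∑ i ∈ Ioc (j + 1) (2 * (j + 1) + 1), (if i ≤ J then {t' i} else 0 : Multiset ℕ) =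
      M + w + ((if 2 * j + 2 ≤ J then {x1} else 0) + (if 2 * j + 3 ≤ J then {x2} else 0)) := by
    have e1 : 2 * (j + 1) + 1 = 2 * j + 3 := by ring
    rw [e1, hsum, hM]
    calc ∑ i ∈ range j, (z i : Multiset ℕ) + ({T} + w) +
          ∑ i ∈ Ioc (j + 1) (2 * j + 3), (if i ≤ J then {t' i} else 0 : Multiset ℕ)
        = ∑ i ∈ range j, (z i : Multiset ℕ) + w + ({T} +
          ∑ i ∈ Ioc (j + 1) (2 * j + 3), (if i ≤ J then {t' i} else 0 : Multiset ℕ)) := by abel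
      _ = _ := by rw [hspl]; abel
  have hle : M + w + ((if 2 * j + 2 ≤ J then {x1} else 0) + (if 2 * j + 3 ≤ J then {x2} else 0)) ≤
      M + w + ({x1} + {x2}) := by
    apply add_le_add le_rfl
    apply add_le_add
    · split_ifs
      · exact le_rfl
      · exact Multiset.zero_le _
    · split_ifs
      · exact le_rfl
      · exact Multiset.zero_le _
  have hx1M : x1 ∉ F ∧ x1 ∉ M := by
    constructor
    · exact fun h => hx1F (Finset.mem_union_left _ h)
    · exact fun h => hx1F (Finset.mem_union_right _ (Multiset.mem_toFinset.mpr h))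
  have hx2M : x2 ≠ x1 ∧ x2 ∉ F ∧ x2 ∉ M := by
    refine ⟨?_, ?_, ?_⟩
    · intro h
      exact hx2F (by rw [h]; exact Finset.mem_insert_self _ _)
    · exact fun h => hx2F (Finset.mem_insert_of_mem (Finset.mem_union_left _ h))
    · exact fun h => hx2F (Finset.mem_insert_of_mem (Finset.mem_union_right _
        (Multiset.mem_toFinset.mpr h)))
  have hwM : ∀ y ∈ w, Ft g₁ g₂ g₃ y ∧ y < T ∧ y ≠ x1 ∧ y ≠ x2 ∧ y ∉ F ∧ y ∉ M ∧ y ∉ S := by
    intro y hy
    obtain ⟨h1, h2, h4, h5⟩ := hwm y hy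
    refine ⟨h1, h2, ?_, ?_, ?_, ?_, h5⟩
    · intro h
      exact h4 (by rw [h]; exact Finset.mem_insert_of_mem (Finset.mem_insert_self _ _))
    · intro h
      exact h4 (by rw [h]; exact Finset.mem_insert_self _ _)
    · exact fun h => h4 (Finset.mem_insert_of_mem (Finset.mem_insert_of_mem
        (Finset.mem_union_left _ h)))
    · exact fun h => h4 (Finset.mem_insert_of_mem (Finset.mem_insert_of_mem
        (Finset.mem_union_right _ (Multiset.mem_toFinset.mpr h))))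
  have hnod2 : (M + w + ({x1} + {x2})).Nodup := by
    rw [Multiset.nodup_add, Multiset.nodup_add, Multiset.nodup_add]
    refine ⟨⟨hnod, hwn, ?_⟩, ⟨Multiset.nodup_singleton _, Multiset.nodup_singleton _, ?_⟩, ?_⟩
    · rw [Multiset.disjoint_left]
      intro y hy hy'
      exact (hwM y hy').2.2.2.2.2.1 hy
    · rw [Multiset.disjoint_left]
      intro y hy hy'
      rw [Multiset.mem_singleton] at hy hy'
      exact hx2M.1 (hy' ▸ hy)
    · rw [Multiset.disjoint_left]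
      intro y hy hy'
      rw [Multiset.mem_add, Multiset.mem_singleton, Multiset.mem_singleton] at hy'
      rw [Multiset.mem_add] at hy
      rcases hy' with rfl | rfl
      · rcases hy with hy | hy
        · exact hx1M.2 hy
        · exact (hwM _ hy).2.2.1 rfl
      · rcases hy with hy | hy
        · exact hx2M.2.2 hy
        · exact (hwM _ hy).2.2.2.1 rfl
  have hall2 : ∀ y ∈ M + w + ({x1} + {x2}), y ≠ H → Ft g₁ g₂ g₃ y ∧ y < H ∧ y ∉ F ∧ y ∉ S := by
    intro y hy hyH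
    rw [Multiset.mem_add, Multiset.mem_add, Multiset.mem_add, Multiset.mem_singleton,
      Multiset.mem_singleton] at hy
    rcases hy with (hy | hy) | (hy | hy)
    · exact hall y hy hyH
    · obtain ⟨h1, h2, _, _, h4, _, h5⟩ := hwM y hy
      exact ⟨h1, by omega, h4, h5⟩
    · rw [hy]
      exact ⟨⟨hne0 x1 hx13, Or.inl hx11, hx13⟩, by omega, hx1M.1, hx1S⟩
    · rw [hy]
      exact ⟨⟨hne0 x2 hx23, Or.inl hx21, hx23⟩, by omega, hx2M.2.1, hx2S⟩
  refine ⟨t', z', ?_, ?_, ?_, ?_, ?_, ?_⟩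
  · intro i hi hi'
    rcases Nat.lt_or_ge (2 * j + 1) i with h | h
    · have h8 : H ≤ T + 8 * (c * (j + 1)) := hTc
      have h9 : 4 * κ ≤ 4 * (c * (j + 1)) := Nat.mul_le_mul_left _ hκc
      have h10 : 8 * c * i ≥ 16 * (c * (j + 1)) := by
        calc 16 * (c * (j + 1)) = 8 * c * (2 * (j + 1)) := by ring
          _ ≤ 8 * c * i := Nat.mul_le_mul_left _ (by omega)
      have h11 : i = 2 * j + 2 ∨ i = 2 * j + 3 := by omega
      rcases h11 with h11 | h11
      · have h12 : t' i = x1 := by rw [h11, ht'1]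
        rw [h12]
        exact ⟨hx11, hx13, by omega, by omega⟩
      · have h12 : t' i = x2 := by rw [h11, ht'2]
        rw [h12]
        exact ⟨hx21, hx23, by omega, by omega⟩
    · rw [ht'0 i h]
      exact htop i hi h
  · intro i hi
    rcases Nat.lt_or_ge i j with h | h
    · rw [hz'i i h]
      exact hlen i h
    · have : i = j := by omega
      rw [this, hz'j]
      exact hzlen
  · rw [hM']
    exact Multiset.nodup_of_le hle hnod2
  · rw [hM']
    rw [Multiset.mem_add, Multiset.mem_add]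
    exact Or.inl (Or.inl hmem)
  · rw [hM']
    intro y hy
    exact hall2 y (Multiset.mem_of_le hle hy)
  · have hspl2 := split_sum (fun i => ({if i ≤ J then t' i else E (i - J - 1)} : Multiset ℕ)) j
    have hold2 : ∑ i ∈ Ioc j (2 * j + 1), ({if i ≤ J then t' i else E (i - J - 1)} : Multiset ℕ) =
        ∑ i ∈ Ioc j (2 * j + 1), ({if i ≤ J then t i else E (i - J - 1)} : Multiset ℕ) := by
      apply Finset.sum_congr rfl
      intro i hi
      rw [ht'0 i (Finset.mem_Ioc.mp hi).2]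
    rw [hold2, ht'0 (j + 1) (by omega), if_pos (show j + 1 ≤ J by omega), ht'1, ht'2, ← he,
      ← he'] at hspl2
    have e1 : 2 * (j + 1) + 1 = 2 * j + 3 := by ring
    rw [e1, hsum, Finset.sum_range_succ, hz'j, hwd]
    have e2 : ∑ i ∈ range j, dm (P i :: (z' i ++ [P' i])) =
        ∑ i ∈ range j, dm (P i :: (z i ++ [P' i])) := by
      apply Finset.sum_congr rfl
      intro i hi
      rw [hz'i i (Finset.mem_range.mp hi)]
    rw [e2]
    calc ∑ i ∈ range j, dm (P i :: (z i ++ [P' i])) + (w + {e} + {e'}) + {H}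
        = (∑ i ∈ range j, dm (P i :: (z i ++ [P' i])) + {H}) + w + {e} + {e'} := by abel
      _ = ∑ i ∈ range j, (z i : Multiset ℕ) + w +
          (∑ i ∈ Ioc j (2 * j + 1), ({if i ≤ J then t i else E (i - J - 1)} : Multiset ℕ) +
            {e} + {e'}) := by rw [heq]; abel
      _ = _ := by rw [← hspl2]; abel

theorem z_jt (hC : C3Stm) : JtStm := by
  intro g₁ g₂ g₃ B H s J P P' E F S h3 hJ hH1 hH3 hP hE hS hs hH
  have key : ∀ j, j ≤ J → ∃ (t : ℕ → ℕ) (z : ℕ → List ℕ),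
      Inv g₁ g₂ g₃ H J (56000 * ((g₁ * g₂ * g₃) * (F.card + 1))) P P' E F S j t z := by
    intro j
    induction j with
    | zero =>
      intro _
      exact ⟨_, _, inv_zero g₁ g₂ g₃ H J _ P P' E F S hJ hH1 hH3⟩
    | succ j ih =>
      intro hj
      obtain ⟨t, z, hI⟩ := ih (by omega)
      exact inv_succ hC g₁ g₂ g₃ B H s J P P' E F S h3 hP hE hS hs hH j (by omega) t z hI
  obtain ⟨t, z, hI⟩ := key J le_rfl
  obtain ⟨_, hlen, hnod, hmem, hall, heq⟩ := hI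
  have h0 : ∑ i ∈ Ioc J (2 * J + 1), (if i ≤ J then {t i} else 0 : Multiset ℕ) = 0 := by
    apply Finset.sum_eq_zero
    intro i hi
    rw [Finset.mem_Ioc] at hi
    rw [if_neg (by omega)]
  rw [h0, add_zero] at hnod hmem hall
  have h1 : ∑ i ∈ Ioc J (2 * J + 1), ({if i ≤ J then t i else E (i - J - 1)} : Multiset ℕ) =
      ∑ j ∈ range (J + 1), ({E j} : Multiset ℕ) := by
    have e1 : Ioc J (2 * J + 1) = (range (J + 1)).image (fun i => J + 1 + i) := by
      ext i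
      simp only [Finset.mem_Ioc, Finset.mem_image, Finset.mem_range]
      constructor
      · intro h
        exact ⟨i - (J + 1), by omega, by omega⟩
      · rintro ⟨a, ha, rfl⟩
        omega
    rw [e1, Finset.sum_image (by intro a _ b _ h; simpa using h)]
    apply Finset.sum_congr rfl
    intro i _
    rw [if_neg (by omega)]
    congr 2
    omega
  rw [h1] at heq
  exact ⟨z, hlen, hnod, hmem, hall, heq⟩

end Pool.Agent.W215.SQ
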